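import Mathlib

/-!
# The lacunary function `V`

Lemmas of the starting file `Pool/Agent/Results/MP_653b50_an/NoRestrictedLimit.lean` (copied), and
bounds of the oscillation of `Im w * Re (V w)` along vertical lines.
-/

set_option autoImplicit false

open Filter Topology InnerProductSpace

namespace Pool.Agent.Y960.Fat

/-- Lacunary frequencies. -/
noncomputable def N (k : ℕ) : ℝ := (2 : ℝ) ^ (k ^ 2)

lemma N_pos (k : ℕ) : 0 < N k := by unfold N; positivity

lemma N_succ (k : ℕ) : N (k + 1) = 2 ^ (2 * k + 1) * N k := by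
  unfold N; rw [← pow_add]; congr 1; ring

lemma two_mul_N_le (k : ℕ) : 2 * N k ≤ N (k + 1) := by
  rw [N_succ]
  have h : (2 : ℝ) ≤ 2 ^ (2 * k + 1) := by
    calc (2 : ℝ) = 2 ^ 1 := by norm_num
      _ ≤ 2 ^ (2 * k + 1) := pow_le_pow_right₀ (by norm_num) (by omega)
  exact mul_le_mul_of_nonneg_right h (N_pos k).le

lemma exp_est {a y : ℝ} (hy : 0 < y) :
    a * Real.exp (-(a * y)) ≤ (2 / y) * (Real.exp (-(a * y / 2)) - Real.exp (-(a * y))) := by
  have h1 : Real.exp (-(a * y / 2)) = Real.exp (-(a * y)) * Real.exp (a * y / 2) := by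
    rw [← Real.exp_add]; congr 1; ring
  have h2 : a * y / 2 + 1 ≤ Real.exp (a * y / 2) := Real.add_one_le_exp _
  have h3 : 0 < Real.exp (-(a * y)) := Real.exp_pos _
  have h4 : (2 / y) * (Real.exp (-(a * y / 2)) - Real.exp (-(a * y)))
      = Real.exp (-(a * y)) * ((2 / y) * (Real.exp (a * y / 2) - 1)) := by
    rw [h1]; ring
  rw [h4, mul_comm a]
  apply mul_le_mul_of_nonneg_left _ h3.le
  rw [div_mul_eq_mul_div, le_div_iff₀ hy]
  linarith

lemma sum_tail_le (p : ℕ) {y : ℝ} (hy : 0 < y) (K : ℕ) :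
    ∑ i ∈ Finset.range K, N (i + p) * Real.exp (-(N (i + p) * y)) ≤
      (2 / y) * (Real.exp (-(N p * y / 2)) - Real.exp (-(N (K + p) * y / 2))) := by
  induction K with
  | zero => simp
  | succ K ih =>
    rw [Finset.sum_range_succ]
    have h1 := exp_est (a := N (K + p)) hy
    have h2 : Real.exp (-(N (K + 1 + p) * y / 2)) ≤ Real.exp (-(N (K + p) * y)) := by
      apply Real.exp_le_exp.mpr
      have h3 := two_mul_N_le (K + p)
      have h4 : K + 1 + p = K + p + 1 := by ring
      rw [h4]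
      nlinarith
    have h5 : 0 < 2 / y := by positivity
    nlinarith [mul_le_mul_of_nonneg_left h2 h5.le]

lemma sum_tail_le' (p : ℕ) {y : ℝ} (hy : 0 < y) (K : ℕ) :
    ∑ i ∈ Finset.range K, N (i + p) * Real.exp (-(N (i + p) * y)) ≤
      (2 / y) * Real.exp (-(N p * y / 2)) := by
  refine (sum_tail_le p hy K).trans ?_
  apply mul_le_mul_of_nonneg_left _ (by positivity)
  linarith [Real.exp_pos (-(N (K + p) * y / 2))]

lemma summable_aux (p : ℕ) {y : ℝ} (hy : 0 < y) :
    Summable (fun i => N (i + p) * Real.exp (-(N (i + p) * y))) :=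
  summable_of_sum_range_le (fun _ => mul_nonneg (N_pos _).le (Real.exp_pos _).le)
    (sum_tail_le' p hy)

lemma tsum_aux_le (p : ℕ) {y : ℝ} (hy : 0 < y) :
    ∑' i, N (i + p) * Real.exp (-(N (i + p) * y)) ≤ (2 / y) * Real.exp (-(N p * y / 2)) :=
  Real.tsum_le_of_sum_range_le (fun _ => mul_nonneg (N_pos _).le (Real.exp_pos _).le)
    (sum_tail_le' p hy)

/-- The terms of the lacunary series. -/
noncomputable def F (k : ℕ) (w : ℂ) : ℂ :=
  (N k : ℂ) * (Complex.exp (Complex.I * N k * w) + Complex.exp (2 * Complex.I * N k * w))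

/-- The lacunary function on the upper half plane. -/
noncomputable def V (w : ℂ) : ℂ := ∑' k, F k w

lemma norm_F_le (k : ℕ) {w : ℂ} (hw : 0 < w.im) :
    ‖F k w‖ ≤ 2 * (N k * Real.exp (-(N k * w.im))) := by
  unfold F
  rw [norm_mul, Complex.norm_real, Real.norm_of_nonneg (N_pos k).le]
  have h1 : ‖Complex.exp (Complex.I * N k * w)‖ = Real.exp (-(N k * w.im)) := by
    rw [Complex.norm_exp]; congr 1; simp
  have h2 : ‖Complex.exp (2 * Complex.I * N k * w)‖ = Real.exp (-(2 * N k * w.im)) := by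
    rw [Complex.norm_exp]; congr 1; simp
  have h3 : Real.exp (-(2 * N k * w.im)) ≤ Real.exp (-(N k * w.im)) := by
    apply Real.exp_le_exp.mpr
    have := mul_pos (N_pos k) hw
    nlinarith
  have h4 := norm_add_le (Complex.exp (Complex.I * N k * w)) (Complex.exp (2 * Complex.I * N k * w))
  rw [h1, h2] at h4
  have h5 := N_pos k
  nlinarith

lemma summable_F {w : ℂ} (hw : 0 < w.im) : Summable (fun k => F k w) := by
  have h := (summable_aux 0 hw).mul_left 2
  simp only [add_zero] at h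
  exact Summable.of_norm_bounded h (fun k => norm_F_le k hw)

lemma norm_tail_le (p : ℕ) {w : ℂ} (hw : 0 < w.im) :
    ‖∑' i, F (i + p) w‖ ≤ (4 / w.im) * Real.exp (-(N p * w.im / 2)) := by
  have hs := (summable_aux p hw).mul_left 2
  have h1 : ‖∑' i, F (i + p) w‖ ≤ ∑' i, 2 * (N (i + p) * Real.exp (-(N (i + p) * w.im))) :=
    tsum_of_norm_bounded hs.hasSum (fun i => norm_F_le (i + p) hw)
  rw [tsum_mul_left] at h1
  have h2 := tsum_aux_le p hw
  have h3 : (4 / w.im) * Real.exp (-(N p * w.im / 2)) =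
    2 * ((2 / w.im) * Real.exp (-(N p * w.im / 2))) := by ring
  rw [h3]
  linarith

lemma norm_V_le {w : ℂ} (hw : 0 < w.im) : ‖V w‖ ≤ 4 / w.im := by
  have h := norm_tail_le 0 hw
  simp only [add_zero] at h
  unfold V
  refine h.trans ?_
  have h1 : Real.exp (-(N 0 * w.im / 2)) ≤ 1 := by
    apply Real.exp_le_one_iff.mpr
    have := mul_pos (N_pos 0) hw
    linarith
  have h2 : 0 < 4 / w.im := by positivity
  nlinarith

lemma analyticAt_V {w : ℂ} (hw : 0 < w.im) : AnalyticAt ℂ V w := by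
  set δ := w.im / 2 with hδ
  have hδ0 : 0 < δ := by positivity
  have hopen : IsOpen {v : ℂ | δ < v.im} := isOpen_lt continuous_const Complex.continuous_im
  have hs := (summable_aux 0 hδ0).mul_left 2
  simp only [add_zero] at hs
  have hd : DifferentiableOn ℂ (fun v : ℂ => ∑' k, F k v) {v : ℂ | δ < v.im} := by
    refine Complex.differentiableOn_tsum_of_summable_norm hs (fun k => ?_) hopen (fun k v hv => ?_)
    · unfold F; fun_prop
    · have hv' : δ < v.im := hv
      have hv0 : 0 < v.im := hδ0.trans hv'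
      refine (norm_F_le k hv0).trans ?_
      have h1 : Real.exp (-(N k * v.im)) ≤ Real.exp (-(N k * δ)) := by
        apply Real.exp_le_exp.mpr
        have := mul_le_mul_of_nonneg_left hv'.le (N_pos k).le
        linarith
      have h5 := N_pos k
      nlinarith
  have hm : w ∈ {v : ℂ | δ < v.im} := by
    show δ < w.im
    rw [hδ]; linarith
  exact hd.analyticAt (hopen.mem_nhds hm)

lemma sum_head_le (m : ℕ) : ∑ k ∈ Finset.range (m + 1), N k ≤ 2 * N m := by
  induction m with
  | zero => simp; linarith [N_pos 0]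
  | succ m ih =>
    rw [Finset.sum_range_succ]
    have := two_mul_N_le m
    linarith

/-- The main asymptotic estimate at the heights `s / N (m+1)`. -/
lemma main_est (x : ℝ) {s : ℝ} (hs : 0 < s) (m : ℕ) :
    |(s / N (m + 1)) * (V ((x : ℂ) + ((s / N (m + 1) : ℝ) : ℂ) * Complex.I)).re
      - s * (Real.exp (-s) * Real.cos (N (m + 1) * x)
        + Real.exp (-(2 * s)) * Real.cos (2 * N (m + 1) * x))|
      ≤ 4 * s * (N m / N (m + 1)) + 4 * Real.exp (-(s * (N (m + 2) / N (m + 1)) / 2)) := by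
  set y : ℝ := s / N (m + 1) with hy
  have hN := N_pos (m + 1)
  have hy0 : 0 < y := by positivity
  set w : ℂ := (x : ℂ) + (y : ℂ) * Complex.I with hw
  have hwim : w.im = y := by simp [hw]
  have hwre : w.re = x := by simp [hw]
  have hw0 : 0 < w.im := by rw [hwim]; exact hy0
  have hsplit := (summable_F hw0).sum_add_tsum_nat_add (m + 2)
  rw [Finset.sum_range_succ] at hsplit
  have hV : V w = ∑ k ∈ Finset.range (m + 1), F k w + F (m + 1) w + ∑' i, F (i + (m + 2)) w :=
    hsplit.symm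
  have hmid : y * (F (m + 1) w).re = s * (Real.exp (-s) * Real.cos (N (m + 1) * x)
        + Real.exp (-(2 * s)) * Real.cos (2 * N (m + 1) * x)) := by
    unfold F
    have e1 : (Complex.I * N (m + 1) * w) = ((-(N (m + 1) * y) : ℝ) : ℂ)
        + ((N (m + 1) * x : ℝ) : ℂ) * Complex.I := by
      rw [hw]; push_cast; ring_nf; rw [Complex.I_sq]; ring
    have e2 : (2 * Complex.I * N (m + 1) * w) = ((-(2 * (N (m + 1) * y)) : ℝ) : ℂ)
        + ((2 * N (m + 1) * x : ℝ) : ℂ) * Complex.I := by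
      rw [hw]; push_cast; ring_nf; rw [Complex.I_sq]; ring
    have hNy : N (m + 1) * y = s := by rw [hy]; field_simp
    rw [e1, e2, hNy, Complex.re_ofReal_mul, Complex.add_re, Complex.exp_re, Complex.exp_re]
    simp only [Complex.add_re, Complex.ofReal_re, Complex.mul_re, Complex.I_re, mul_zero,
      Complex.ofReal_im, Complex.I_im, mul_one, sub_self, add_zero, Complex.add_im,
      Complex.mul_im, zero_add]
    rw [← mul_assoc, mul_comm y, hNy]
  have hhead : ‖∑ k ∈ Finset.range (m + 1), F k w‖ ≤ 4 * N m := by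
    refine (norm_sum_le _ _).trans ?_
    have h1 : ∀ k ∈ Finset.range (m + 1), ‖F k w‖ ≤ 2 * N k := by
      intro k _
      refine (norm_F_le k hw0).trans ?_
      have h2 : Real.exp (-(N k * w.im)) ≤ 1 := by
        apply Real.exp_le_one_iff.mpr
        have := mul_pos (N_pos k) hw0
        linarith
      have h3 := N_pos k
      nlinarith
    refine (Finset.sum_le_sum h1).trans ?_
    rw [← Finset.mul_sum]
    have := sum_head_le m
    linarith
  have htail := norm_tail_le (m + 2) hw0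
  rw [hwim] at htail
  have hre1 := Complex.abs_re_le_norm (∑ k ∈ Finset.range (m + 1), F k w)
  have hre2 := Complex.abs_re_le_norm (∑' i, F (i + (m + 2)) w)
  have hkey : y * (V w).re - s * (Real.exp (-s) * Real.cos (N (m + 1) * x)
        + Real.exp (-(2 * s)) * Real.cos (2 * N (m + 1) * x))
      = y * (∑ k ∈ Finset.range (m + 1), F k w).re + y * (∑' i, F (i + (m + 2)) w).re := by
    rw [← hmid, hV, Complex.add_re, Complex.add_re]; ring
  rw [hkey]
  refine (abs_add_le _ _).trans ?_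
  rw [abs_mul, abs_mul, abs_of_pos hy0]
  have t1 : y * |(∑ k ∈ Finset.range (m + 1), F k w).re| ≤ 4 * s * (N m / N (m + 1)) := by
    calc y * |(∑ k ∈ Finset.range (m + 1), F k w).re| ≤ y * (4 * N m) :=
          mul_le_mul_of_nonneg_left (hre1.trans hhead) hy0.le
      _ = 4 * s * (N m / N (m + 1)) := by rw [hy]; field_simp
  have t2 : y * |(∑' i, F (i + (m + 2)) w).re| ≤
      4 * Real.exp (-(s * (N (m + 2) / N (m + 1)) / 2)) := by
    calc y * |(∑' i, F (i + (m + 2)) w).re|
        ≤ y * ((4 / y) * Real.exp (-(N (m + 2) * y / 2))) :=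
          mul_le_mul_of_nonneg_left (hre2.trans htail) hy0.le
      _ = 4 * Real.exp (-(N (m + 2) * y / 2)) := by field_simp
      _ = 4 * Real.exp (-(s * (N (m + 2) / N (m + 1)) / 2)) := by
          congr 2; rw [hy]; ring
  exact add_le_add t1 t2

lemma ratio_tendsto : Tendsto (fun m : ℕ => N m / N (m + 1)) atTop (𝓝 0) := by
  have h : (fun m : ℕ => N m / N (m + 1)) = fun m : ℕ => (1 / 2 : ℝ) * ((1 / 4 : ℝ)) ^ m := by
    funext m
    rw [N_succ, pow_add, pow_mul]
    have := (N_pos m).ne'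
    field_simp
    rw [← mul_pow]; norm_num
  rw [h]
  have := (tendsto_pow_atTop_nhds_zero_of_lt_one (r := (1 / 4 : ℝ)) (by norm_num)
    (by norm_num)).const_mul (1 / 2 : ℝ)
  simpa using this

lemma ratio_tendsto_atTop : Tendsto (fun m : ℕ => N (m + 2) / N (m + 1)) atTop atTop := by
  have h : (fun m : ℕ => N (m + 2) / N (m + 1)) = fun m : ℕ => (8 : ℝ) * (4 : ℝ) ^ m := by
    funext m
    rw [N_succ (m + 1)]
    have := (N_pos (m + 1)).ne'
    field_simp
    rw [show 2 * (m + 1) + 1 = 2 * m + 3 by ring, pow_add, pow_mul]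
    norm_num; ring
  rw [h]
  exact (tendsto_pow_atTop_atTop_of_one_lt (by norm_num : (1 : ℝ) < 4)).const_mul_atTop (by norm_num)

lemma error_tendsto {s : ℝ} (hs : 0 < s) :
    Tendsto (fun m : ℕ => 4 * s * (N m / N (m + 1))
      + 4 * Real.exp (-(s * (N (m + 2) / N (m + 1)) / 2))) atTop (𝓝 0) := by
  have h1 := ratio_tendsto.const_mul (4 * s)
  have h2 : Tendsto (fun m : ℕ => s * (N (m + 2) / N (m + 1)) / 2) atTop atTop :=
    (ratio_tendsto_atTop.const_mul_atTop hs).atTop_div_const (by norm_num)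
  have h3 := (Real.tendsto_exp_neg_atTop_nhds_zero.comp h2).const_mul 4
  have h4 := h1.add h3
  simpa using h4

/-- the values at the heights one and two cannot both be small -/
lemma two_heights (c : ℝ) (h1 : |Real.exp (-1) * (c + Real.exp (-1) * (2 * c ^ 2 - 1))| < 1 / 50)
    (h2 : |2 * Real.exp (-2) * (c + Real.exp (-2) * (2 * c ^ 2 - 1))| < 1 / 50) : False := by
  set a : ℝ := Real.exp (-1) with ha
  have ha1 : 0.367 < a := by
    have := Real.exp_neg_one_gt_d9
    rw [ha]
    linarith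
  have ha2 : a < 0.368 := by
    have := Real.exp_neg_one_lt_d9
    rw [ha]
    linarith
  have hb : Real.exp (-2) = a ^ 2 := by
    rw [ha, ← Real.exp_nat_mul]
    norm_num
  rw [hb] at h2
  have hb1 : 0.134 < a ^ 2 := by nlinarith
  have hb2 : a ^ 2 < 0.136 := by nlinarith
  set X : ℝ := c + a * (2 * c ^ 2 - 1) with hX
  set Y : ℝ := c + a ^ 2 * (2 * c ^ 2 - 1) with hY
  have hX1 : |X| < 0.055 := by
    rw [abs_mul, abs_of_pos (by linarith : 0 < a)] at h1
    nlinarith [abs_nonneg X]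
  have hY1 : |Y| < 0.075 := by
    rw [abs_mul, abs_of_pos (by linarith : 0 < 2 * a ^ 2)] at h2
    nlinarith [abs_nonneg Y]
  obtain ⟨hX2, hX3⟩ := abs_lt.1 hX1
  obtain ⟨hY2, hY3⟩ := abs_lt.1 hY1
  have hd : X - Y = (a - a ^ 2) * (2 * c ^ 2 - 1) := by rw [hX, hY]; ring
  have hd1 : 0.231 < a - a ^ 2 := by linarith
  set q : ℝ := 2 * c ^ 2 - 1 with hq
  have hq1 : q < 0.6 := by nlinarith
  have hq2 : -0.6 < q := by nlinarith
  have hc1 : c < 0.2 := by nlinarith
  have hc2 : -0.2 < c := by nlinarith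
  nlinarith

/-- the main term is at least `1 / 50` at one of the heights one and two -/
lemma main_term (θ : ℝ) :
    1 / 50 ≤ |1 * (Real.exp (-1) * Real.cos θ + Real.exp (-(2 * 1)) * Real.cos (2 * θ))| ∨
    1 / 50 ≤ |2 * (Real.exp (-2) * Real.cos θ + Real.exp (-(2 * 2)) * Real.cos (2 * θ))| := by
  by_contra hcon
  push Not at hcon
  obtain ⟨h1, h2⟩ := hcon
  refine two_heights (Real.cos θ) ?_ ?_
  · have e : Real.exp (-1) * (Real.cos θ + Real.exp (-1) * (2 * Real.cos θ ^ 2 - 1)) =
        1 * (Real.exp (-1) * Real.cos θ + Real.exp (-(2 * 1)) * Real.cos (2 * θ)) := by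
      have e1 : Real.exp (-(2 * 1)) = Real.exp (-1) * Real.exp (-1) := by
        rw [← Real.exp_add]; norm_num
      rw [e1, Real.cos_two_mul]
      ring
    rw [e]
    exact h1
  · have e : 2 * Real.exp (-2) * (Real.cos θ + Real.exp (-2) * (2 * Real.cos θ ^ 2 - 1)) =
        2 * (Real.exp (-2) * Real.cos θ + Real.exp (-(2 * 2)) * Real.cos (2 * θ)) := by
      have e1 : Real.exp (-(2 * 2)) = Real.exp (-2) * Real.exp (-2) := by
        rw [← Real.exp_add]; norm_num
      rw [e1, Real.cos_two_mul]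
      ring
    rw [e]
    exact h2

/-- the values `y * Re V(x + i y)` at the heights `s / N (m + 1)` -/
noncomputable def vv (x s : ℝ) (m : ℕ) : ℝ :=
  (s / N (m + 1)) * (V ((x : ℂ) + ((s / N (m + 1) : ℝ) : ℂ) * Complex.I)).re

lemma vv_big (x : ℝ) : (∃ᶠ m in atTop, 1 / 100 ≤ |vv x 1 m|) ∨
    ∃ᶠ m in atTop, 1 / 100 ≤ |vv x 2 m| := by
  rw [← frequently_or_distrib]
  refine Eventually.frequently ?_
  have h1 : ∀ᶠ m : ℕ in atTop, 4 * 1 * (N m / N (m + 1))
      + 4 * Real.exp (-(1 * (N (m + 2) / N (m + 1)) / 2)) < 1 / 100 :=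
    (error_tendsto one_pos).eventually_lt_const (by norm_num)
  have h2 : ∀ᶠ m : ℕ in atTop, 4 * 2 * (N m / N (m + 1))
      + 4 * Real.exp (-(2 * (N (m + 2) / N (m + 1)) / 2)) < 1 / 100 :=
    (error_tendsto two_pos).eventually_lt_const (by norm_num)
  filter_upwards [h1, h2] with m e1 e2
  have f1 := main_est x one_pos m
  have f2 := main_est x two_pos m
  have key : ∀ A B ε : ℝ, |A - B| ≤ ε → ε < 1 / 100 → 1 / 50 ≤ |B| → 1 / 100 ≤ |A| := by
    intro A B ε h1 h2 h3
    have h4 : |B| ≤ |A| + |A - B| := by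
      have : B = A - (A - B) := by ring
      calc |B| = |A - (A - B)| := by rw [← this]
        _ ≤ |A| + |A - B| := abs_sub _ _
    linarith
  have hm := main_term (N (m + 1) * x)
  rw [← mul_assoc] at hm
  rcases hm with h | h
  · left
    exact key _ _ _ f1 e1 h
  · right
    exact key _ _ _ f2 e2 h

lemma vv_small (x δ : ℝ) (hδ : 0 < δ) : ∀ᶠ m in atTop, |vv x (δ / 4) m| < δ := by
  have hs : 0 < δ / 4 := by positivity
  have h1 : ∀ᶠ m : ℕ in atTop, 4 * (δ / 4) * (N m / N (m + 1))
      + 4 * Real.exp (-(δ / 4 * (N (m + 2) / N (m + 1)) / 2)) < δ / 4 :=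
    (error_tendsto hs).eventually_lt_const hs
  filter_upwards [h1] with m e1
  have f1 := main_est x hs m
  have e3 : |δ / 4 * (Real.exp (-(δ / 4)) * Real.cos (N (m + 1) * x)
        + Real.exp (-(2 * (δ / 4))) * Real.cos (2 * N (m + 1) * x))| ≤ δ / 4 * 2 := by
    rw [abs_mul, abs_of_pos hs]
    refine mul_le_mul_of_nonneg_left ?_ hs.le
    have g1 : Real.exp (-(δ / 4)) ≤ 1 := Real.exp_le_one_iff.mpr (by linarith)
    have g2 : Real.exp (-(2 * (δ / 4))) ≤ 1 := Real.exp_le_one_iff.mpr (by linarith)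
    have g3 := Real.abs_cos_le_one (N (m + 1) * x)
    have g4 := Real.abs_cos_le_one (2 * N (m + 1) * x)
    have g5 : (2 : ℝ) = 1 + 1 := by norm_num
    rw [g5]
    refine (abs_add_le _ _).trans (add_le_add ?_ ?_)
    · rw [abs_mul, abs_of_pos (Real.exp_pos _)]
      exact mul_le_one₀ g1 (abs_nonneg _) g3
    · rw [abs_mul, abs_of_pos (Real.exp_pos _)]
      have g6 : (1 + 1 : ℝ) = 2 := by norm_num
      rw [g6]
      exact mul_le_one₀ g2 (abs_nonneg _) g4
  have key : ∀ A B ε : ℝ, |A - B| ≤ ε → ε < δ / 4 → |B| ≤ δ / 4 * 2 → |A| < δ := by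
    intro A B ε h1 h2 h3
    have h4 : |A| ≤ |A - B| + |B| := by
      have : A = (A - B) + B := by ring
      calc |A| = |(A - B) + B| := by rw [← this]
        _ ≤ |A - B| + |B| := abs_add_le _ _
    linarith
  exact key _ _ _ f1 e1 e3

/-- the heights `s / N (m + 1) / η` tend to zero -/
lemma heights {s η : ℝ} (hs : 0 < s) (hη : 0 < η) :
    Tendsto (fun m : ℕ => s / N (m + 1) / η) atTop (𝓝[>] 0) := by
  rw [tendsto_nhdsWithin_iff]
  constructor
  · have h1 : Tendsto (fun m : ℕ => N (m + 1)) atTop atTop := by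
      have h2 : Tendsto (fun m : ℕ => (2 : ℝ) ^ m) atTop atTop :=
        tendsto_pow_atTop_atTop_of_one_lt (by norm_num)
      refine tendsto_atTop_mono (fun m => ?_) h2
      unfold N
      exact pow_le_pow_right₀ (by norm_num) (by nlinarith)
    have h3 := (h1.const_div_atTop s).div_const η
    simpa using h3
  · exact Eventually.of_forall fun m => by
      have := N_pos (m + 1)
      show 0 < s / N (m + 1) / η
      positivity

end Pool.Agent.Y960.Fat
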