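import Mathlib

/-!
# A Phragmén–Lindelöf principle for harmonic functions in a half plane
-/

set_option autoImplicit false

open Filter Topology InnerProductSpace

namespace Pool.Agent.Y960.Fat

/-- A function which is harmonic in the upper half plane, at most `M` on the line `Im w = s` and
of sublinear growth above this line is at most `M` above this line. -/
lemma pl {h : ℂ → ℝ} {s M : ℝ} (hs : 0 < s) (hh : ∀ w : ℂ, 0 < w.im → HarmonicAt h w)
    (hb : ∀ w : ℂ, w.im = s → h w ≤ M)
    (hg : ∀ ε > 0, ∃ K : ℝ, ∀ w : ℂ, s ≤ w.im → |h w| ≤ K + ε * w.im) :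
    ∀ w : ℂ, s ≤ w.im → h w ≤ M := by
  intro w₀ hw₀
  -- the estimate with a barrier
  have key : ∀ ε > 0, h w₀ ≤ M + ε * (w₀.im - s + Real.log ‖w₀ + Complex.I‖) := by
    intro ε hε
    obtain ⟨K, hK⟩ := hg ε hε
    set ρ : ℝ := max (‖w₀‖ + 1) (Real.exp ((K - M + ε * s) / ε)) with hρ
    have hρ0 : 0 < ρ := lt_max_of_lt_right (Real.exp_pos _)
    have hρw : ‖w₀‖ < ρ := lt_of_lt_of_le (by linarith) (le_max_left _ _)
    have hρK : K - M + ε * s ≤ ε * Real.log ρ := by
      have h1 : (K - M + ε * s) / ε ≤ Real.log ρ := by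
        rw [Real.le_log_iff_exp_le hρ0]
        exact le_max_right _ _
      rw [div_le_iff₀ hε] at h1
      linarith
    -- the ball and the holomorphic function
    set L : ℝ := ρ ^ 2 / s with hL
    have hL0 : 0 < L := by positivity
    have hball : ∀ w : ℂ, w ∈ Metric.ball ((L : ℂ) * Complex.I) L → 0 < w.im := by
      intro w hw
      rw [Metric.mem_ball, dist_eq_norm] at hw
      have h1 := Complex.abs_im_le_norm (w - (L : ℂ) * Complex.I)
      have h2 : (w - (L : ℂ) * Complex.I).im = w.im - L := by simp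
      rw [h2] at h1
      have h3 := (abs_lt.1 (lt_of_le_of_lt h1 hw)).1
      linarith
    have hin : ∀ w : ℂ, s ≤ w.im → ‖w‖ ≤ ρ → w ∈ Metric.ball ((L : ℂ) * Complex.I) L := by
      intro w hw1 hw2
      rw [Metric.mem_ball, dist_eq_norm]
      have h1 : ‖w - (L : ℂ) * Complex.I‖ ^ 2 = ‖w‖ ^ 2 - 2 * L * w.im + L ^ 2 := by
        rw [← Complex.normSq_eq_norm_sq, ← Complex.normSq_eq_norm_sq, Complex.normSq_apply,
          Complex.normSq_apply]
        simp
        ring
      have h2 : ‖w‖ ^ 2 ≤ ρ ^ 2 := pow_le_pow_left₀ (norm_nonneg _) hw2 2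
      have h3 : ρ ^ 2 = L * s := by rw [hL]; field_simp
      have h4 : ‖w - (L : ℂ) * Complex.I‖ ^ 2 < L ^ 2 := by
        rw [h1]
        have h5 : L * s ≤ L * w.im := mul_le_mul_of_nonneg_left hw1 hL0.le
        have h6 : 0 < L * s := by positivity
        linarith
      exact lt_of_pow_lt_pow_left₀ 2 hL0.le h4
    obtain ⟨F, hF1, hF2⟩ := InnerProductSpace.HarmonicOnNhd.exists_analyticOnNhd_ball_re_eq
      (f := h) (z := (L : ℂ) * Complex.I) (R := L) (fun w hw => hh w (hball w hw))
    set G : ℂ → ℂ := fun w => Complex.exp (F w - M -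
      ε * (-(Complex.I * w) - s + Complex.log (w + Complex.I))) with hG
    have hGn : ∀ w : ℂ, s ≤ w.im → ‖w‖ ≤ ρ →
        ‖G w‖ = Real.exp (h w - M - ε * (w.im - s + Real.log ‖w + Complex.I‖)) := by
      intro w hw1 hw2
      have h1 : (F w).re = h w := hF2 (hin w hw1 hw2)
      simp only [hG]
      rw [Complex.norm_exp]
      congr 1
      simp only [Complex.sub_re, Complex.mul_re, Complex.ofReal_re, Complex.ofReal_im, zero_mul,
        sub_zero, Complex.add_re, Complex.neg_re, Complex.I_re, Complex.I_im, one_mul, zero_sub,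
        neg_neg, Complex.log_re, h1]
    set W : Set ℂ := {w | s < w.im} ∩ Metric.ball 0 ρ with hW
    have hWo : IsOpen W :=
      (isOpen_lt continuous_const Complex.continuous_im).inter Metric.isOpen_ball
    have hWb : Bornology.IsBounded W := Metric.isBounded_ball.subset Set.inter_subset_right
    have hcl : closure W ⊆ {w | s ≤ w.im ∧ ‖w‖ ≤ ρ} := by
      refine closure_minimal ?_ ?_
      · rintro w ⟨h1, h2⟩
        rw [mem_ball_zero_iff] at h2
        exact ⟨le_of_lt h1, h2.le⟩
      · exact (isClosed_le continuous_const Complex.continuous_im).inter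
          (isClosed_le continuous_norm continuous_const)
    have hdiff : DifferentiableOn ℂ G (closure W) := by
      intro w hw
      obtain ⟨h1, h2⟩ := hcl hw
      have h3 : DifferentiableAt ℂ F w := (hF1 w (hin w h1 h2)).differentiableAt
      have h4 : w + Complex.I ∈ Complex.slitPlane := by
        rw [Complex.mem_slitPlane_iff]
        right
        simp only [Complex.add_im, Complex.I_im]
        linarith
      have h5 : DifferentiableAt ℂ (fun w : ℂ => Complex.log (w + Complex.I)) w :=
        (differentiableAt_id.add_const _).clog h4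
      have h6 : DifferentiableAt ℂ G w := by
        simp only [hG]
        fun_prop
      exact h6.differentiableWithinAt
    have hfr : ∀ w ∈ frontier W, ‖G w‖ ≤ 1 := by
      intro w hw
      have hwc : w ∈ closure W := hw.1
      obtain ⟨h1, h2⟩ := hcl hwc
      have hwn : w ∉ W := by
        have h3 := hw.2
        rwa [hWo.interior_eq] at h3
      rw [hGn w h1 h2]
      refine Real.exp_le_one_iff.2 ?_
      have him : w.im + 1 ≤ ‖w + Complex.I‖ := by
        have h3 := Complex.abs_im_le_norm (w + Complex.I)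
        simp only [Complex.add_im, Complex.I_im] at h3
        exact (le_abs_self _).trans h3
      by_cases hws : w.im = s
      · have h3 := hb w hws
        have h4 : 0 ≤ Real.log ‖w + Complex.I‖ := Real.log_nonneg (by linarith)
        have h5 : 0 ≤ ε * Real.log ‖w + Complex.I‖ := mul_nonneg hε.le h4
        rw [hws]
        linarith
      · have h3 : s < w.im := lt_of_le_of_ne h1 (Ne.symm hws)
        have h4 : ‖w‖ = ρ := by
          by_contra hne
          exact hwn ⟨h3, by rw [mem_ball_zero_iff]; exact lt_of_le_of_ne h2 hne⟩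
        have h5 : ρ ≤ ‖w + Complex.I‖ := by
          rw [← h4]
          have h6 : ‖w‖ ^ 2 ≤ ‖w + Complex.I‖ ^ 2 := by
            rw [← Complex.normSq_eq_norm_sq, ← Complex.normSq_eq_norm_sq, Complex.normSq_apply,
              Complex.normSq_apply]
            simp only [Complex.add_re, Complex.I_re, add_zero, Complex.add_im, Complex.I_im]
            nlinarith
          exact le_of_sq_le_sq h6 (norm_nonneg _)
        have h6 : Real.log ρ ≤ Real.log ‖w + Complex.I‖ := Real.log_le_log hρ0 h5
        have h7 := (abs_le.1 (hK w h1)).2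
        have h8 : ε * Real.log ρ ≤ ε * Real.log ‖w + Complex.I‖ :=
          mul_le_mul_of_nonneg_left h6 hε.le
        linarith
    have hcont : DiffContOnCl ℂ G W := hdiff.diffContOnCl
    have hw₀c : w₀ ∈ closure W := by
      -- `w₀` is a limit of `w₀ + iδ`
      rw [Metric.mem_closure_iff]
      intro δ hδ
      set τ : ℝ := min (δ / 2) ((ρ - ‖w₀‖) / 2) with hτ
      have hτ0 : 0 < τ := lt_min (by positivity) (by linarith)
      have hn : ‖((τ : ℝ) : ℂ) * Complex.I‖ = τ := by
        rw [norm_mul, Complex.norm_real, Complex.norm_I, mul_one, Real.norm_of_nonneg hτ0.le]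
      refine ⟨w₀ + ((τ : ℝ) : ℂ) * Complex.I, ⟨?_, ?_⟩, ?_⟩
      · show s < (w₀ + ((τ : ℝ) : ℂ) * Complex.I).im
        simp
        linarith
      · rw [mem_ball_zero_iff]
        have h1 := norm_add_le w₀ (((τ : ℝ) : ℂ) * Complex.I)
        rw [hn] at h1
        have h2 : τ ≤ (ρ - ‖w₀‖) / 2 := min_le_right _ _
        linarith
      · rw [dist_eq_norm]
        have h1 : w₀ - (w₀ + ((τ : ℝ) : ℂ) * Complex.I) = -(((τ : ℝ) : ℂ) * Complex.I) := by ring
        rw [h1, norm_neg, hn]
        have h2 : τ ≤ δ / 2 := min_le_left _ _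
        linarith
    have h1 := Complex.norm_le_of_forall_mem_frontier_norm_le hWb hcont hfr hw₀c
    rw [hGn w₀ hw₀ hρw.le, Real.exp_le_one_iff] at h1
    linarith
  -- let `ε` tend to zero
  have h1 : Tendsto (fun ε : ℝ => M + ε * (w₀.im - s + Real.log ‖w₀ + Complex.I‖)) (𝓝[>] 0)
      (𝓝 (M + 0 * (w₀.im - s + Real.log ‖w₀ + Complex.I‖))) := by
    refine Tendsto.mono_left ?_ nhdsWithin_le_nhds
    exact (Continuous.tendsto (by fun_prop) 0)
  rw [zero_mul, add_zero] at h1
  refine ge_of_tendsto h1 ?_
  filter_upwards [self_mem_nhdsWithin] with ε hε using key ε hε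

end Pool.Agent.Y960.Fat
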